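import Pool.Agent.Y298.CA.Stm2

/-!
# A disc of hyperbolic parameters around a superattracting one (project CA, job CA2-ATT)
-/

set_option autoImplicit false

open Set Filter Metric MeasureTheory Topology

namespace Pool.Agent.Y287.CA

open Pool.Agent.TH279.MD Pool.Agent.Y298.SH Pool.Agent.Y298.SH.CD Pool.Agent.Y298.CA
open Pool.Agent.H712R2 (P)
open scoped NNReal

theorem att : S_ATT := by
  intro d n c' η ρ A D hd hn hP hη hρ hD hA h1 h2 c hc
  have hcc : ‖c - c'‖ < η := by rwa [mem_ball, dist_eq_norm] at hc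
  have hD0 : 0 ≤ D := (norm_nonneg _).trans (hD c hc)
  have hA0 : 0 ≤ A := (norm_nonneg _).trans (hA c hc c (mem_closedBall_self (by positivity)))
  -- the critical orbit returns close to the critical point
  have hPc : ‖P d n c‖ ≤ ρ / 2 := by
    have h3 := Convex.norm_image_sub_le_of_norm_deriv_le (f := P d n) (C := D)
      (fun x _ => (Pool.Agent.H713R2.differentiable_P d n) x) hD (convex_ball c' η)
      (mem_ball_self hη) hc
    rw [hP, sub_zero] at h3
    nlinarith
  set F : ℂ → ℂ := (f d c)^[n] with hF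
  have hF0 : F 0 = P d n c := rfl
  have hder : ∀ z ∈ closedBall (0 : ℂ) ρ, ‖deriv F z‖ ≤ 1 / 2 := by
    intro z hz
    rw [mem_closedBall_zero_iff] at hz
    obtain ⟨k, rfl⟩ : ∃ k, n = k + 1 := ⟨n - 1, by omega⟩
    rw [hF, deriv_iter_add, Function.iterate_one, deriv_f, norm_mul, norm_mul, norm_pow,
      Complex.norm_natCast]
    have h4 : ‖deriv ((f d c)^[k]) (f d c z)‖ ≤ A := by
      have h4' := hA c hc (f d c z)
      rw [Nat.add_sub_cancel] at h4'
      apply h4'
      rw [mem_closedBall, dist_eq_norm]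
      show ‖z ^ d + c - c‖ ≤ ρ ^ d
      rw [add_sub_cancel_right, norm_pow]
      exact pow_le_pow_left₀ (norm_nonneg _) hz d
    have h5 : ‖z‖ ^ (d - 1) ≤ ρ ^ (d - 1) := pow_le_pow_left₀ (norm_nonneg _) hz _
    calc ‖deriv ((f d c)^[k]) (f d c z)‖ * (d * ‖z‖ ^ (d - 1)) ≤ A * (d * ρ ^ (d - 1)) := by
          gcongr
      _ ≤ 1 / 2 := by linarith
  have hFd : Differentiable ℂ F := differentiable_fn d c n
  have hLip : ∀ z ∈ closedBall (0 : ℂ) ρ, ∀ w ∈ closedBall (0 : ℂ) ρ,
      ‖F z - F w‖ ≤ 1 / 2 * ‖z - w‖ := by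
    intro z hz w hw
    exact Convex.norm_image_sub_le_of_norm_deriv_le (f := F) (C := 1 / 2)
      (fun x _ => hFd x) hder (convex_closedBall 0 ρ) hw hz
  have hmaps : MapsTo F (closedBall (0 : ℂ) ρ) (closedBall (0 : ℂ) ρ) := by
    intro z hz
    have h3 := hLip z hz 0 (mem_closedBall_self hρ.le)
    rw [mem_closedBall_zero_iff] at hz ⊢
    rw [sub_zero] at h3
    have h4 : ‖F z‖ ≤ ‖F z - F 0‖ + ‖F 0‖ := by simpa using norm_add_le (F z - F 0) (F 0)
    rw [hF0] at h3 h4
    linarith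
  have hcontr : ContractingWith (1 / 2 : ℝ≥0) (hmaps.restrict F _ _) := by
    refine ⟨?_, ?_⟩
    · rw [← NNReal.coe_lt_coe]
      norm_num
    · apply LipschitzWith.of_dist_le_mul
      rintro ⟨z, hz⟩ ⟨w, hw⟩
      rw [Subtype.dist_eq, Subtype.dist_eq, dist_eq_norm, dist_eq_norm]
      have := hLip z hz w hw
      simpa using this
  obtain ⟨z, hz, hfix, -, -⟩ := hcontr.exists_fixedPoint' isClosed_closedBall.isComplete hmaps
    (mem_closedBall_self hρ.le : (0 : ℂ) ∈ closedBall (0 : ℂ) ρ) (edist_ne_top _ _)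
  refine ⟨?_, n, z, hn, hfix, hFd z, (hder z hz).trans_lt (by norm_num)⟩
  -- the parameter is in the multibrot set
  intro hT
  have hT1 : Tendsto (fun k : ℕ => (f d c)^[k] 0) atTop (Bornology.cobounded ℂ) := hT
  have h3 : Tendsto (fun i : ℕ => n * i) atTop atTop := by
    refine tendsto_atTop_mono (fun i => ?_) tendsto_id
    show i ≤ n * i
    nlinarith
  have h4 := tendsto_norm_atTop_iff_cobounded.mpr (hT1.comp h3)
  have h5 : ∀ i : ℕ, ‖((fun k : ℕ => (f d c)^[k] 0) ∘ fun i : ℕ => n * i) i‖ ≤ ρ := by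
    intro i
    have h6 := hmaps.iterate i (mem_closedBall_self hρ.le : (0 : ℂ) ∈ closedBall (0 : ℂ) ρ)
    rw [mem_closedBall_zero_iff] at h6
    show ‖(f d c)^[n * i] 0‖ ≤ ρ
    rw [Function.iterate_mul]
    exact h6
  obtain ⟨i, hi⟩ := (h4.eventually_gt_atTop ρ).exists
  exact absurd (h5 i) (not_le.mpr hi)

end Pool.Agent.Y287.CA
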