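import Pool.Agent.Y298.CA.Stm2

/-!
# Superattracting parameters of controlled period from Schottky (project CA, job CA2-SCH)
-/

set_option autoImplicit false

open Set Filter Metric MeasureTheory Topology

namespace Pool.Agent.Y287.CA

open Pool.Agent.TH279.MD Pool.Agent.Y298.SH Pool.Agent.Y298.SH.CD Pool.Agent.Y298.CA
open Pool.Agent.H712R2 (P P_succ)

theorem sch : S_SCH := by
  intro d C₁ lam c₀ h
  obtain ⟨κ, ε, J, hκ, hε, hgrow⟩ := h.grow
  have hd := h.hd
  have hc0 : c₀ ≠ 0 := h.zz_ne 0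
  have hc0n : 0 < ‖c₀‖ := norm_pos_iff.mpr hc0
  have hc2 : ‖c₀‖ ≤ 2 := h.bd 0
  set M : ℝ := 2 ^ d / ‖c₀‖ with hM
  have hM0 : 0 < M := by positivity
  obtain ⟨C', hC'⟩ := Pool.Agent.Lev.J_schottky.main M
  set D : ℝ := max C' 1 with hD
  have hD1 : 1 ≤ D := le_max_right _ _
  have hDC : C' ≤ D := le_max_left _ _
  refine ⟨(1 + M + 8 * D) / κ + 1, min 1 (‖c₀‖ / 2), max J 1, by positivity, by positivity, ?_⟩
  intro r hr hrr N hN hC
  have hr1 : r ≤ 1 := hrr.trans (min_le_left _ _)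
  have hr2 : r ≤ ‖c₀‖ / 2 := hrr.trans (min_le_right _ _)
  have hNJ : J ≤ N := (le_max_left _ _).trans hN
  have hN1 : 1 ≤ N := (le_max_right _ _).trans hN
  by_contra hcon
  push Not at hcon
  have hne : ∀ c ∈ ball c₀ r, c ≠ 0 := by
    rintro c hc rfl
    rw [mem_ball, dist_eq_norm, zero_sub, norm_neg] at hc
    linarith
  have hPd : Differentiable ℂ (P d N) := Pool.Agent.H713R2.differentiable_P d N
  set G : ℂ → ℂ := fun c => -(P d N c) ^ d / c with hG
  have hGd : DifferentiableOn ℂ G (ball c₀ r) := by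
    apply DifferentiableOn.div
    · exact ((hPd.pow d).neg).differentiableOn
    · exact differentiableOn_id
    · exact hne
  have hG01 : ∀ z ∈ ball c₀ r, G z ≠ 0 ∧ G z ≠ 1 := by
    intro z hz
    have h1 := hcon N hN1 (by omega) z hz
    have h2 := hcon (N + 1) (by omega) le_rfl z hz
    refine ⟨?_, ?_⟩
    · exact div_ne_zero (neg_ne_zero.mpr (pow_ne_zero _ h1)) (hne z hz)
    · intro h3
      apply h2
      rw [P_succ]
      have h4 : -(P d N z) ^ d / z = 1 := h3
      rw [div_eq_one_iff_eq (hne z hz)] at h4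
      linear_combination -h4
  have hPb : ‖P d N c₀‖ ≤ 2 := by
    obtain ⟨k, rfl⟩ : ∃ k, N = k + 1 := ⟨N - 1, by omega⟩
    rw [P_succ_eq hd]
    exact h.bd k
  have hGM : ‖G c₀‖ ≤ M := by
    show ‖-(P d N c₀) ^ d / c₀‖ ≤ M
    rw [norm_div, norm_neg, norm_pow, hM]
    gcongr
  have hb := hC' G c₀ r hr hGd hG01 hGM
  have hder : ‖deriv G c₀‖ ≤ D / (r / 4) := by
    apply Complex.norm_deriv_le_of_forall_mem_sphere_norm_le (by positivity)
    · apply DifferentiableOn.diffContOnCl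
      rw [closure_ball _ (by positivity)]
      exact hGd.mono (closedBall_subset_ball (by linarith))
    · intro z hz
      refine (hb z ?_).trans hDC
      rw [mem_sphere] at hz
      rw [mem_ball, hz]
      linarith
  have heq : P d (N + 1) =ᶠ[𝓝 c₀] fun c => c - c * G c := by
    filter_upwards [isOpen_ball.mem_nhds (mem_ball_self hr)] with c hc
    rw [P_succ]
    have h5 : c * G c = -(P d N c) ^ d := by
      show c * (-(P d N c) ^ d / c) = _
      rw [mul_div_cancel₀ _ (hne c hc)]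
    rw [h5]
    ring
  have hGc : HasDerivAt G (deriv G c₀) c₀ :=
    (hGd.differentiableAt (isOpen_ball.mem_nhds (mem_ball_self hr))).hasDerivAt
  have h6 : HasDerivAt (fun c => c - c * G c) (1 - (1 * G c₀ + c₀ * deriv G c₀)) c₀ :=
    (hasDerivAt_id c₀).sub ((hasDerivAt_id c₀).mul hGc)
  have h7 : deriv (P d (N + 1)) c₀ = 1 - (1 * G c₀ + c₀ * deriv G c₀) := by
    rw [heq.deriv_eq]
    exact h6.deriv
  have h8 : ‖deriv (P d (N + 1)) c₀‖ ≤ 1 + (M + 2 * (D / (r / 4))) := by
    rw [h7, one_mul]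
    refine (norm_sub_le _ _).trans ?_
    rw [norm_one]
    refine add_le_add le_rfl ((norm_add_le _ _).trans (add_le_add hGM ?_))
    rw [norm_mul]
    gcongr
  have hg := hgrow c₀ h c₀ (by rw [sub_self, norm_zero]; exact hε.le) N hNJ (fun j _ => by
    show Pd d c₀ j / 2 ≤ Pd d c₀ j
    linarith [Pd_nonneg d c₀ j])
  have h9 : κ * Pd d c₀ N ≤ 1 + (M + 2 * (D / (r / 4))) := hg.trans h8
  have h10 : r * (1 + (M + 2 * (D / (r / 4)))) = r + r * M + 8 * D := by
    field_simp
    ring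
  have h11 : r * (κ * Pd d c₀ N) ≤ 1 + M + 8 * D := by
    calc r * (κ * Pd d c₀ N) ≤ r * (1 + (M + 2 * (D / (r / 4)))) := by gcongr
      _ = r + r * M + 8 * D := h10
      _ ≤ 1 + M + 8 * D := by nlinarith
  have h12 : r * Pd d c₀ N ≤ (1 + M + 8 * D) / κ := by
    rw [le_div_iff₀ hκ]
    linarith
  linarith

end Pool.Agent.Y287.CA
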